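import Pool.Agent.H74.TMDefs
import Pool.Agent.H74.Phi3

/-!
# Every `Π⁰₁` Medvedev degree is the degree of the immortal set of a Turing machine
-/

namespace Pool.Agent.Results.MP_4596be_lc.ImmortalDegrees

open H74

/-- For every `Π⁰₁` class `P` (in particular for every nonempty one) there is a Turing machine
whose immortal set is Medvedev equivalent to `P`. -/
theorem result (P : Set (ℕ → Bool)) (hP : IsPi01 P) :
    ∃ M : TM, MedvedevEquiv (M.code '' M.immortal) P := by
  classical
  obtain ⟨T0, hT0, rfl⟩ := hP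
  obtain ⟨T, hT1, hT2, hT3⟩ := exists_prim_tree hT0
  obtain ⟨K, Q, _, C, ρ, PO, hA, hB⟩ := exists_prog (hfun (goodT T)) (comp_hfun hT1 true)
    (comp_hfun hT1 false)
  refine ⟨toTM C, ?_, ?_⟩
  · -- from a point of `P` to an immortal configuration
    refine ⟨_, (prim_phi1 (eS (Fin (K+1)) Q (.go (.rtoY false ∅ none none))).val
      (eT (Fin (K+1)) Q (true, ∅, .B)).val (eT (Fin (K+1)) Q (false, ∅, .B)).val).to_comp, ?_⟩
    intro p hp
    refine ⟨_, ⟨toCfg C (wp p) (conf0 (Fin (K+1)) Q), ?_, rfl⟩, computes_phi1 C p⟩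
    rw [immortal_iff]
    apply run_complete PO
    have hp' : ∀ n, T (pref p n) = true := (hT3 p).2 hp
    intro n a m ha hm
    obtain ⟨x, rfl⟩ : ∃ x : ℕ, a = x := ⟨a.toNat, by omega⟩
    refine ⟨D_wp p x m, fun z z' _ _ _ => by simp, ?_⟩
    intro h2 _
    apply hB _ _ _ _ (by omega)
    intro ℓ
    rw [tr_hfun1]
    · rfl
    · intro ℓ' h1 _
      rw [goodT_iff]
      exact ⟨pref p ℓ', pref_length p ℓ', hp' ℓ', near_wp p x ℓ'⟩
  · -- from an immortal configuration to a point of `P`
    refine ⟨_, (prim_phi2 (toTM C) (wtab (Fin (K+1)) Q)).to_comp, ?_⟩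
    rintro _ ⟨y, hy, rfl⟩
    have hnh : ¬ Halts C (wOf C y) (confOf C y) := by
      rw [← immortal_iff, toCfg_confOf]; exact hy
    obtain ⟨hW, hunb⟩ := run_sound PO _ _ _ _ hnh
    choose cc hcc using runO_some_of_not_halts hnh
    obtain ⟨p, hp1, hp2⟩ := main_analysis (C := C) (w := wOf C y) T hT2 hA
      (fun t => (cc t).lo) (fun t => (cc t).hi)
      (by
        intro t t' h
        obtain ⟨k, rfl⟩ := Nat.exists_eq_add_of_le h
        exact (runO_mono (hcc t) k (hcc (t+k))).1)
      (by
        intro t t' h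
        obtain ⟨k, rfl⟩ := Nat.exists_eq_add_of_le h
        exact (runO_mono (hcc t) k (hcc (t+k))).2)
      (by
        intro N
        obtain ⟨t, c', h1, h2⟩ := hunb N
        refine ⟨t, ?_⟩
        have : cc t = c' := Option.some.inj ((hcc t).symm.trans h1)
        simp only [this]
        exact h2)
      (fun t => hW t _ (hcc t))
    refine ⟨p, (hT3 p).1 hp1, ?_⟩
    intro n
    have hval : ∀ k, gB (toTM C) k.unpair.1 ≤ k →
        phi2 (toTM C) (wtab (Fin (K+1)) Q) (pref ((toTM C).code y) k) n =
        if 16*8^(n+1) ≤ ((cc k.unpair.1).hi - (cc k.unpair.1).lo - 3).toNat then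
          some (p n) else none := by
      intro k hk
      obtain ⟨c, h1, h2⟩ := phi2_value C y hnh k n hk
      have hc : cc k.unpair.1 = c := Option.some.inj ((hcc _).symm.trans h1)
      rw [h2, hc]
      by_cases h3 : 16*8^(n+1) ≤ (c.hi - c.lo - 3).toNat
      · rw [if_pos h3, if_pos h3]
        have := hp2 n k.unpair.1 (by simp only [hc]; exact h3)
        simp only [hc] at this
        rw [this]
      · rw [if_neg h3, if_neg h3]
    have hnone : ∀ k, ¬ gB (toTM C) k.unpair.1 ≤ k →
        phi2 (toTM C) (wtab (Fin (K+1)) Q) (pref ((toTM C).code y) k) n = none := by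
      intro k hk
      unfold phi2
      rw [pref_length, if_neg hk]
    have hex : ∃ k, phi2 (toTM C) (wtab (Fin (K+1)) Q) (pref ((toTM C).code y) k) n ≠ none := by
      obtain ⟨t, c', h1, h2⟩ := hunb (16*8^(n+1) + 3)
      have hc : cc t = c' := Option.some.inj ((hcc t).symm.trans h1)
      refine ⟨Nat.pair t (gB (toTM C) t), ?_⟩
      rw [hval _ (by rw [Nat.unpair_pair]; exact Nat.right_le_pair _ _), Nat.unpair_pair]
      simp only [hc]
      rw [if_pos]
      · simp
      · push_cast at h2
        zify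
        rw [Int.toNat_of_nonneg (by
          have : (0:ℤ) ≤ 16*8^(n+1) := by positivity
          linarith)]
        linarith
    refine ⟨Nat.find hex, ?_, ?_⟩
    · have h1 := Nat.find_spec hex
      by_cases hk : gB (toTM C) (Nat.find hex).unpair.1 ≤ Nat.find hex
      · rw [hval _ hk] at h1 ⊢
        split_ifs at h1 ⊢ with h2
        · rfl
        · exact absurd rfl h1
      · exact absurd (hnone _ hk) h1
    · intro j hj
      have := Nat.find_min hex hj
      simpa using this

end Pool.Agent.Results.MP_4596be_lc.ImmortalDegrees
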